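import Pool.Agent.Lib.MP_6d445e_gt.Iface

/-!
# Module AF: abstract fusion
-/

set_option autoImplicit false

universe u v w

namespace Pool.Agent.Lib.MP_6d445e_gt.H97

open Cardinal Filter
open Pool.Agent.Lib.MP_100a6c_lc
open Pool.Agent.Lib.MP_e6fef2_lc

section

variable {A C : Type u} [CompleteBooleanAlgebra A] [CompleteBooleanAlgebra C] {f : A → C}

theorem ce_iSup (hf : IsCE f) {ι : Sort*} (a : ι → A) : f (⨆ i, a i) = ⨆ i, f (a i) := by
  rw [← sSup_range, hf.sSup, iSup_range]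

theorem prj_iSup (hf : IsCE f) {ι : Sort*} (c : ι → C) :
    prj f (⨆ i, c i) = ⨆ i, prj f (c i) := by
  obtain ⟨-, -, -, -, -, -, -, -, -, -, -, -, -, -, -, hs, -⟩ := all_alg A C f hf
  rw [← sSup_range, hs, iSup_range]

/-- disjoint refinement for a countable index set -/
theorem disj_ref {X : Type v} [Countable X] (a : X → A) : ∃ b : X → A, (∀ x, b x ≤ a x) ∧
    (∀ x y, x ≠ y → b x ⊓ b y = ⊥) ∧ ⨆ x, b x = ⨆ x, a x := by
  obtain ⟨i, hi⟩ := Countable.exists_injective_nat X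
  have hdis : ∀ x y, i x < i y →
      (a x ⊓ (⨆ z, ⨆ _ : i z < i x, a z)ᶜ) ⊓ (a y ⊓ (⨆ z, ⨆ _ : i z < i y, a z)ᶜ) = ⊥ := by
    intro x y h
    refine le_bot_iff.1 ?_
    have h1 : a x ≤ ⨆ z, ⨆ _ : i z < i y, a z := le_iSup₂_of_le x h le_rfl
    calc (a x ⊓ (⨆ z, ⨆ _ : i z < i x, a z)ᶜ) ⊓ (a y ⊓ (⨆ z, ⨆ _ : i z < i y, a z)ᶜ)
        ≤ (⨆ z, ⨆ _ : i z < i y, a z) ⊓ (⨆ z, ⨆ _ : i z < i y, a z)ᶜ :=
          inf_le_inf (inf_le_left.trans h1) inf_le_right
      _ = ⊥ := inf_compl_eq_bot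
  refine ⟨fun x => a x ⊓ (⨆ y, ⨆ _ : i y < i x, a y)ᶜ, fun x => inf_le_left, ?_, ?_⟩
  · intro x y hxy
    rcases lt_or_gt_of_ne (fun h => hxy (hi h)) with h | h
    · exact hdis x y h
    · rw [inf_comm]
      exact hdis y x h
  · refine le_antisymm (iSup_mono fun x => inf_le_left) (iSup_le ?_)
    have key : ∀ n, ∀ x, i x = n →
        a x ≤ ⨆ x, a x ⊓ (⨆ y, ⨆ _ : i y < i x, a y)ᶜ := by
      intro n
      induction n using Nat.strong_induction_on with
      | _ n ih =>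
        intro x hx
        have h1 : a x ≤ (⨆ y, ⨆ _ : i y < i x, a y) ⊔
            (a x ⊓ (⨆ y, ⨆ _ : i y < i x, a y)ᶜ) := by
          rw [sup_inf_left, sup_compl_eq_top, inf_top_eq]
          exact le_sup_right
        refine h1.trans (sup_le (iSup₂_le fun y hy => ?_) ?_)
        · exact ih (i y) (by omega) y rfl
        · exact le_iSup (fun x => a x ⊓ (⨆ y, ⨆ _ : i y < i x, a y)ᶜ) x
    exact fun x => key (i x) x rfl

end

/-- module AF -/
theorem af : AfStatement.{u, v} := by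
  classical
  intro A _ f C _ e hf he hef hthr X _ u E hu x0 a ha
  -- the states at stage `n`
  let P : ∀ n, (X n → A n) → Prop := fun n w =>
    (∀ x, w x ≤ u n x) ∧ ∀ x y, x ≠ y → w x ⊓ w y = ⊥
  have step : ∀ (n : ℕ) (w : {w : X n → A n // P n w}),
      ∃ w' : {w' : X (n + 1) → A (n + 1) // P (n + 1) w'},
        prj (f n) (⨆ x', w'.1 x') = ⨆ x, w.1 x ∧
        ∀ x', w'.1 x' ≤ ⨆ x, ⨆ _ : E n x x', f n (w.1 x) := by
    rintro n ⟨w, hw1, hw2⟩
    obtain ⟨-, -, -, -, -, -, -, -, -, -, -, -, hmono, -, -, -, hlin, -, -⟩ :=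
      all_alg _ _ (f n) (hf n)
    obtain ⟨b, hb1, hb2, hb3⟩ := disj_ref
      (fun x' : X (n + 1) => (⨆ x, ⨆ _ : E n x x', f n (w x)) ⊓ u (n + 1) x')
    refine ⟨⟨b, fun x => (hb1 x).trans inf_le_right, hb2⟩, ?_, fun x' =>
      (hb1 x').trans inf_le_left⟩
    simp only
    rw [hb3]
    have h1 : (⨆ x' : X (n + 1), (⨆ x, ⨆ _ : E n x x', f n (w x)) ⊓ u (n + 1) x') =
        ⨆ x, (⨆ x', ⨆ _ : E n x x', u (n + 1) x') ⊓ f n (w x) := by
      simp only [iSup_inf_eq]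
      rw [iSup_comm]
      refine iSup_congr fun x => iSup_congr fun x' => iSup_congr fun _ => ?_
      exact inf_comm _ _
    rw [h1, prj_iSup (hf n)]
    refine iSup_congr fun x => ?_
    rw [hlin]
    exact inf_eq_right.2 ((hw1 x).trans (hu n x))
  choose nxt hn1 hn2 using step
  have hP0 : P 0 (fun x => if x = x0 then a else ⊥) := by
    refine ⟨fun x => ?_, fun x y hxy => ?_⟩
    · simp only
      split_ifs with h
      · rw [h]
        exact ha
      · exact bot_le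
    · simp only
      by_cases h : x = x0
      · rw [if_neg (fun h' : y = x0 => hxy (h.trans h'.symm)), inf_bot_eq]
      · rw [if_neg h, bot_inf_eq]
  let W : ∀ n, {w : X n → A n // P n w} := fun n =>
    Nat.rec (motive := fun n => {w : X n → A n // P n w}) ⟨_, hP0⟩ (fun n w => nxt n w) n
  have hW0 : (W 0).1 = fun x => if x = x0 then a else ⊥ := rfl
  have hW1 : ∀ n, prj (f n) (⨆ x', (W (n + 1)).1 x') = ⨆ x, (W n).1 x := fun n => hn1 n (W n)
  have hW2 : ∀ n x', (W (n + 1)).1 x' ≤ ⨆ x, ⨆ _ : E n x x', f n ((W n).1 x) :=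
    fun n => hn2 n (W n)
  have hq0 : (⨆ x, (W 0).1 x) = a := by
    rw [hW0]
    refine le_antisymm (iSup_le fun x => ?_) (le_iSup_of_le x0 (by simp))
    simp only
    split_ifs
    · exact le_rfl
    · exact bot_le
  refine ⟨⨅ n, e n (⨆ x, (W n).1 x), ?_, ?_⟩
  · rw [hthr (fun n => ⨆ x, (W n).1 x) hW1, hq0]
  · have h1 : ∀ᶠ h in ae C, ∀ n, (⨆ x, e n ((W n).1 x)) ∈ h ↔ ∃ x, e n ((W n).1 x) ∈ h :=
      ae_all fun n => ae_iSup _
    have h2 : ∀ᶠ h in ae C, ∀ n, ∀ x' : X (n + 1),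
        (⨆ y : {x : X n // E n x x'}, e n ((W n).1 y.1)) ∈ h ↔
          ∃ y : {x : X n // E n x x'}, e n ((W n).1 y.1) ∈ h :=
      ae_all fun n => ae_all fun x' => ae_iSup _
    filter_upwards [h1, h2] with h g1 g2 hp
    have hex : ∀ n, ∃ x, e n ((W n).1 x) ∈ h := by
      intro n
      rw [← g1 n, ← ce_iSup (he n)]
      exact h.mono (iInf_le _ n) hp
    choose ξ hξ using hex
    have huniq : ∀ n x, e n ((W n).1 x) ∈ h → x = ξ n := by
      intro n x hx
      by_contra hne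
      obtain ⟨-, ebot, einf, -⟩ := all_alg _ _ (e n) (he n)
      have h3 := h.inf _ _ hx (hξ n)
      rw [← einf, (W n).2.2 x (ξ n) hne, ebot] at h3
      exact h.bot h3
    refine ⟨ξ, ?_, fun n => ⟨?_, ?_⟩⟩
    · by_contra hne
      have h3 := hξ 0
      rw [hW0] at h3
      simp only [if_neg hne] at h3
      rw [(all_alg _ _ (e 0) (he 0)).2.1] at h3
      exact h.bot h3
    · obtain ⟨-, -, -, -, hle, -⟩ := all_alg _ _ (e (n + 1)) (he (n + 1))
      have h3 : e (n + 1) (⨆ x, ⨆ _ : E n x (ξ (n + 1)), f n ((W n).1 x)) ∈ h :=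
        h.mono ((hle _ _).2 (hW2 n (ξ (n + 1)))) (hξ (n + 1))
      have h4 : e (n + 1) (⨆ x, ⨆ _ : E n x (ξ (n + 1)), f n ((W n).1 x)) =
          ⨆ y : {x : X n // E n x (ξ (n + 1))}, e n ((W n).1 y.1) := by
        rw [ce_iSup (he (n + 1)), iSup_subtype]
        refine iSup_congr fun x => ?_
        rw [ce_iSup (he (n + 1))]
        exact iSup_congr fun _ => hef n _
      rw [h4, g2 n (ξ (n + 1))] at h3
      obtain ⟨⟨x, hx⟩, hxh⟩ := h3
      rw [← huniq n x hxh]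
      exact hx
    · obtain ⟨-, -, -, -, hle, -⟩ := all_alg _ _ (e n) (he n)
      exact h.mono ((hle _ _).2 ((W n).2.1 (ξ n))) (hξ n)

end Pool.Agent.Lib.MP_6d445e_gt.H97
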