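import Pool.Agent.Lib.MP_6d445e_gt.Iface2

/-!
# Modules ARI0 and ARI1: natural numbers
-/

set_option autoImplicit false

namespace Pool.Agent.Lib.MP_6d445e_gt.H97

open Pool.Agent.Lib.MP_6d445e_gt

theorem gen (Q : ℕ → ℕ → Prop) (hm : ∀ K K' j, K ≤ K' → Q K j → Q K' j)
    (he : ∀ m, ∃ K, Q K m) :
    (Monotone (fun K => sSup {j | j ≤ K ∧ Q K j})) ∧
    (∀ m, ∃ K, m ≤ sSup {j | j ≤ K ∧ Q K j}) ∧
    ∀ K, 0 < sSup {j | j ≤ K ∧ Q K j} → Q K (sSup {j | j ≤ K ∧ Q K j}) := by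
  have hb : ∀ K, BddAbove {j | j ≤ K ∧ Q K j} := fun K => ⟨K, fun j hj => hj.1⟩
  refine ⟨?_, ?_, ?_⟩
  · intro K K' hK
    simp only
    rcases Set.eq_empty_or_nonempty {j | j ≤ K ∧ Q K j} with h | h
    · rw [h]
      simp
    · exact csSup_le_csSup (hb K') h fun j hj => ⟨hj.1.trans hK, hm K K' j hK hj.2⟩
  · intro m
    obtain ⟨K, hK⟩ := he m
    exact ⟨max K m, le_csSup (hb _) ⟨le_max_right _ _, hm K _ m (le_max_left _ _) hK⟩⟩
  · intro K hK
    have hne : {j | j ≤ K ∧ Q K j}.Nonempty := by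
      by_contra h
      rw [Set.not_nonempty_iff_eq_empty] at h
      rw [h] at hK
      simp at hK
    exact (Nat.sSup_mem hne (hb K)).2

theorem le_mx (f : ℕ → ℕ) {n k : ℕ} (h : k ≤ n) : f k ≤ mx f n :=
  Finset.le_sup (f := f) (Finset.mem_range.mpr (Nat.lt_succ_of_le h))

/-- module ARI0 -/
theorem ari0 : Ari0Statement := by
  intro f en Ψ
  have g1 := gen (fun K j => ∀ n ≤ j, ∀ i ≤ j, ∀ c ≤ j, ∀ k ≤ f n,
      en (Nat.pair k (Nat.pair i c)) < K)
    (fun K K' j hK h n hn i hi c hc k hk => lt_of_lt_of_le (h n hn i hi c hc k hk) hK)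
    (fun m => ⟨mx (fun n => mx (fun i => mx (fun c => mx (fun k =>
      en (Nat.pair k (Nat.pair i c))) (f n)) m) m) m + 1, fun n hn i hi c hc k hk => by
        refine Nat.lt_succ_of_le ?_
        refine le_trans ?_ (le_mx (fun n => mx (fun i => mx (fun c => mx (fun k =>
          en (Nat.pair k (Nat.pair i c))) (f n)) m) m) hn)
        refine le_trans ?_ (le_mx (fun i => mx (fun c => mx (fun k =>
          en (Nat.pair k (Nat.pair i c))) (f n)) m) hi)
        refine le_trans ?_ (le_mx (fun c => mx (fun k =>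
          en (Nat.pair k (Nat.pair i c))) (f n)) hc)
        exact le_mx (fun k => en (Nat.pair k (Nat.pair i c))) hk⟩)
  have g2 := gen (fun K j => ∀ n ≤ j, ∀ i ≤ j, ∀ c ≤ j, ∀ b ≤ j, ∀ k ≤ f n,
      Ψ (Nat.pair b (en (Nat.pair k (Nat.pair i c)))) < K)
    (fun K K' j hK h n hn i hi c hc b hb k hk =>
      lt_of_lt_of_le (h n hn i hi c hc b hb k hk) hK)
    (fun m => ⟨mx (fun n => mx (fun i => mx (fun c => mx (fun b => mx (fun k =>
      Ψ (Nat.pair b (en (Nat.pair k (Nat.pair i c))))) (f n)) m) m) m) m + 1,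
      fun n hn i hi c hc b hb k hk => by
        refine Nat.lt_succ_of_le ?_
        refine le_trans ?_ (le_mx (fun n => mx (fun i => mx (fun c => mx (fun b => mx (fun k =>
          Ψ (Nat.pair b (en (Nat.pair k (Nat.pair i c))))) (f n)) m) m) m) hn)
        refine le_trans ?_ (le_mx (fun i => mx (fun c => mx (fun b => mx (fun k =>
          Ψ (Nat.pair b (en (Nat.pair k (Nat.pair i c))))) (f n)) m) m) hi)
        refine le_trans ?_ (le_mx (fun c => mx (fun b => mx (fun k =>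
          Ψ (Nat.pair b (en (Nat.pair k (Nat.pair i c))))) (f n)) m) hc)
        refine le_trans ?_ (le_mx (fun b => mx (fun k =>
          Ψ (Nat.pair b (en (Nat.pair k (Nat.pair i c))))) (f n)) hb)
        exact le_mx (fun k => Ψ (Nat.pair b (en (Nat.pair k (Nat.pair i c))))) hk⟩)
  exact ⟨⟨g1.1, g1.2.1⟩, ⟨g2.1, g2.2.1⟩, g1.2.2, g2.2.2⟩

theorem nx_mem {S : Set ℕ} (hS : S.Infinite) (q : ℕ) : nx S q ∈ S ∧ q ≤ nx S q := by
  have hne : {n | n ∈ S ∧ q ≤ n}.Nonempty := by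
    obtain ⟨b, hb, hq⟩ := hS.exists_gt q
    exact ⟨b, hb, hq.le⟩
  exact Nat.sInf_mem hne

/-- module ARI1 -/
theorem ari1 (h0 : Ari0Statement) : Ari1Statement := by
  classical
  intro S f be en xx xi vi y sl q k hS hxx h1 h2 h3 h4 h5
  obtain ⟨⟨hJm, hJu⟩, -, hJ, -⟩ := h0 f en (fun n => n)
  obtain ⟨m, hm⟩ := h5
  -- `a ≤ q a`
  have hq : ∀ a, a ≤ q a := by
    intro a
    induction a with
    | zero => exact Nat.zero_le _
    | succ a ih =>
      obtain ⟨e1, e2, -⟩ := h3 a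
      omega
  have hk : ∀ a, a ≤ k a := fun a => (hq a).trans (h3 a).1.le
  set b : ℕ → ℕ := fun a => nx S (q a) with hb
  have hbS : ∀ a, b a ∈ S := fun a => (nx_mem hS (q a)).1
  have hbq : ∀ a, q a ≤ b a := fun a => (nx_mem hS (q a)).2
  set N : ℕ → ℕ := fun a => max (be (Nat.pair (b a) (xi (b a + 2)))) (b a) with hN
  have hNa : ∀ a, a ≤ N a := fun a => (hq a).trans ((hbq a).trans (le_max_right _ _))
  -- the lower bound `th1`
  have hth : ∀ a, b a < k a ∧ xi (b a + 2) < J1 f en (k a) := by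
    intro a
    have hne : {K | nx S (q a) < K ∧ xi (nx S (q a) + 2) < J1 f en K}.Nonempty := by
      obtain ⟨K, hK⟩ := hJu (xi (nx S (q a) + 2) + 1)
      refine ⟨max K (nx S (q a) + 1), ?_, ?_⟩
      · exact lt_of_lt_of_le (Nat.lt_succ_self _) (le_max_right _ _)
      · exact lt_of_lt_of_le (Nat.lt_of_succ_le hK) (hJm (le_max_left _ _))
    have hmem := Nat.sInf_mem hne
    have hle := (h3 a).2.2
    exact ⟨lt_of_lt_of_le hmem.1 hle, lt_of_lt_of_le hmem.2 (hJm hle)⟩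
  obtain ⟨a0, ha0⟩ := hJu m
  refine ⟨N a0, fun n hn => ?_⟩
  by_contra hcon
  push Not at hcon
  -- the greatest `a` with `N a ≤ n`
  have ha0n : a0 ≤ n := (hNa a0).trans hn
  set a := Nat.findGreatest (fun a => N a ≤ n) n with ha
  have haN : N a ≤ n := Nat.findGreatest_spec (P := fun a => N a ≤ n) ha0n hn
  have haa0 : a0 ≤ a := Nat.le_findGreatest ha0n hn
  have hlt : n < N (a + 1) := by
    by_contra h
    push Not at h
    have h7 : a + 1 ≤ n := (hNa (a + 1)).trans h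
    have := Nat.le_findGreatest (P := fun a => N a ≤ n) h7 h
    omega
  have hbn : b a ≤ n := (le_max_right _ _).trans haN
  obtain ⟨t1, t2⟩ := hth a
  have hJpos : 0 < J1 f en (k a) := lt_of_le_of_lt (Nat.zero_le _) t2
  have hmJ : m ≤ J1 f en (k a) := ha0.trans (hJm (haa0.trans (hk a)))
  rcases le_or_gt n (J1 f en (k a)) with hc | hc
  · have e1 : k a ≤ vi (b a) := h4 a (b a) (hbS a) (hbq a) t1
    have e2 : vi (b a) ≤ en (Nat.pair (y n) (Nat.pair (xi (b a + 2)) (b a))) :=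
      h2 n (b a) ((le_max_left _ _).trans haN)
    have e3 := hJ (k a) hJpos n hc (xi (b a + 2)) t2.le (b a) (hbn.trans hc) (y n) hcon
    omega
  · have e1 : y n ≤ om1 S f be xi (q (a + 1)) := by
      refine hcon.trans ?_
      exact le_mx f hlt.le
    have e2 : xx (J1 f en (k a) - 1) ≤ sl (y n) (J1 f en (k a)) := by
      have := (h1 n (J1 f en (k a) - 1) (by omega)).2
      rwa [Nat.sub_add_cancel hJpos] at this
    have e3 := hm a hmJ (y n) e1 e2
    have e4 := (h1 n (J1 f en (k a)) (by omega)).1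
    omega

end Pool.Agent.Lib.MP_6d445e_gt.H97
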